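import Pool.Agent.K.MP_ae2765_an.C21
import Pool.Agent.K.MP_ae2765_an.C6

namespace Pool.Agent.Results.MP_ae2765_an.OneInflection
open Set Pool.Agent.HillD

theorem result : ∃ (M : ℝ → ℝ → Matrix (Fin 2) (Fin 2) ℝ) (N D : ℕ → ℝ → ℝ),
    (∀ δ > 0, ∀ ω > 0,
      (∀ X, IsMonodromy δ ω X ↔ X = M δ ω) ∧
      (M δ ω 1 0 = 0 ↔ ∃ l, 1 ≤ l ∧ ω = N l δ) ∧
      (M δ ω 0 1 = 0 ↔ ∃ l, 1 ≤ l ∧ ω = D l δ) ∧
      (|(M δ ω).trace| = 2 ↔ ∃ l, 1 ≤ l ∧ (ω = N l δ ∨ ω = D l δ)) ∧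
      (2 < |(M δ ω).trace| ↔
        ∃ l, 1 ≤ l ∧ min (N l δ) (D l δ) < ω ∧ ω < max (N l δ) (D l δ))) ∧
    (∀ l, 1 ≤ l → ∀ δ > 0, max (N l δ) (D l δ) < min (N (l + 1) δ) (D (l + 1) δ)) ∧
    (∀ δ > 0, N 1 δ = 1) ∧
    ∀ (l : ℕ) (f : ℝ → ℝ), (2 ≤ l ∧ f = N l) ∨ (1 ≤ l ∧ f = D l) →
      IsLine l f ∧ ∃ x > 0, (∀ y, IsInflection f y ↔ y = x) ∧
        StrictConvexOn ℝ (Ioc 0 x) f ∧ StrictConcaveOn ℝ (Ici x) f := by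
  have key : ∀ (θ0 : ℝ) (l : ℕ), (θ0 = 0 ∨ θ0 = Real.pi / 2) → (2 ≤ l ∨ (l = 1 ∧ θ0 = 0)) →
      IsLine l (fun δ => cur θ0 l (mm δ)) ∧
        ∃ x > 0, (∀ y, IsInflection (fun δ => cur θ0 l (mm δ)) y ↔ y = x) ∧
          StrictConvexOn ℝ (Ioc 0 x) (fun δ => cur θ0 l (mm δ)) ∧
          StrictConcaveOn ℝ (Ici x) fun δ => cur θ0 l (mm δ) := by
    intro θ0 l hθ hl
    have h := isLine hθ hl
    refine ⟨h, unique_inflection h.1 (fun x hx h2 => ?_) h.2.2.2⟩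
    rcases le_or_gt l 30 with k | k
    · exact small_l hθ hl k hx h2
    · exact big_l hθ k hx h2
  refine ⟨mono, fun l δ => cur (Real.pi / 2) l (mm δ), fun l δ => cur 0 l (mm δ),
    fun δ _ ω hω => ⟨isMonodromy_iff hω, mono_10 hω, mono_01 hω, trace_eq_two hω, two_lt_trace hω⟩,
    fun l hl δ _ => cur_interlace hl (mm_nonneg δ) (mm_lt δ),
    fun δ _ => cur_N1 (mm_nonneg δ) (mm_lt δ), ?_⟩
  rintro l f (⟨hl, rfl⟩ | ⟨hl, rfl⟩)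
  · exact key _ l (Or.inr rfl) (Or.inl hl)
  · exact key _ l (Or.inl rfl) (hl.lt_or_eq.imp id fun h => ⟨h.symm, rfl⟩)

end Pool.Agent.Results.MP_ae2765_an.OneInflection
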